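import Pool.Agent.Helper38.UN.St

/-! UN, module ASM: a ring kernel gives a planar kernel pattern. -/

set_option autoImplicit false

open Set Filter Topology Matrix
open scoped ContDiff ComplexConjugate

noncomputable section

namespace Pool.Agent.Helper87.UN38

open Pool.Agent.Helper71.UN Pool.Agent.Helper38.UN
open Pool.Agent.Helper54.TRI (PatC)

/-- The level of a point. -/
private def Lv (β : ℂ) (r₁ : ℝ) (x : ℂ) (j : ℤ) : Prop := r₁ ≤ ‖β ^ j * x‖ ∧ ‖β ^ (j - 1) * x‖ < r₁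

/-- The kernel. -/
private def Ke (β : ℂ) (S : Finset ℤ) (R : ℤ → ℂ → ℂ → ℝ) (x v : ℂ) : ℝ :=
  (∑ m ∈ S, R m (β ^ m * x) (β ^ m * v)) - if v = 0 then 1 else 0

private theorem nz_ASM {β : ℂ} (hβ : 1 < ‖β‖) : β ≠ 0 := by
  rintro rfl
  rw [norm_zero] at hβ
  linarith

private theorem norm_ASM (β x : ℂ) (m : ℤ) : ‖β ^ m * x‖ = ‖β‖ ^ m * ‖x‖ := by
  rw [norm_mul, norm_zpow]

private theorem lev_ASM {β : ℂ} {r₁ : ℝ} (hβ : 1 < ‖β‖) (hr : 0 < r₁) {x : ℂ} (hx : x ≠ 0) :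
    ∃ j, Lv β r₁ x j := by
  have hx0 : 0 < ‖x‖ := norm_pos_iff.2 hx
  obtain ⟨n, h1, h2⟩ := exists_mem_Ioc_zpow (div_pos hr hx0) hβ
  refine ⟨n + 1, ?_, ?_⟩
  · rw [norm_ASM]
    rwa [div_le_iff₀ hx0] at h2
  · rw [norm_ASM, add_sub_cancel_right]
    rwa [lt_div_iff₀ hx0] at h1

section

variable {β : ℂ} {Γ : ℤ → ℂ → Prop} {S : Finset ℤ} {r₁ r₂ : ℝ} {R : ℤ → ℂ → ℂ → ℝ} {Λ : Finset ℂ}

private theorem mul_zero_ASM (hβ : 1 < ‖β‖) (m : ℤ) (v : ℂ) : β ^ m * v = 0 ↔ v = 0 := by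
  constructor
  · intro h
    rcases mul_eq_zero.1 h with h | h
    · exact absurd h (zpow_ne_zero _ (nz_ASM hβ))
    · exact h
  · rintro rfl
    exact mul_zero _

private theorem key_ASM (hβ : 1 < ‖β‖) (hr : r₂ < ‖β‖ * r₁) (h0 : (0 : ℤ) ∈ S)
    (h1 : (1 : ℤ) ∈ S) (hR : RingK Γ S r₁ r₂ R Λ) {x : ℂ} {j : ℤ} (hj : Lv β r₁ x j) (v : ℂ) :
    Ke β S R x v = R j (β ^ j * x) (β ^ j * v) := by
  have hb0 : 0 < ‖β‖ := by linarith
  have hlow : ∀ m, m < j → ‖β ^ m * x‖ < r₁ := by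
    intro m hm
    refine lt_of_le_of_lt ?_ hj.2
    rw [norm_ASM, norm_ASM]
    exact mul_le_mul_of_nonneg_right (zpow_le_zpow_right₀ hβ.le (by omega)) (norm_nonneg _)
  have hupp : ∀ m, j < m → r₂ < ‖β ^ m * x‖ := by
    intro m hm
    refine lt_of_lt_of_le hr ?_
    have h3 : ‖β‖ * r₁ ≤ ‖β‖ * ‖β ^ j * x‖ := mul_le_mul_of_nonneg_left hj.1 hb0.le
    refine h3.trans ?_
    rw [norm_ASM, norm_ASM, ← mul_assoc]
    refine mul_le_mul_of_nonneg_right ?_ (norm_nonneg _)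
    rw [mul_comm, ← zpow_add_one₀ hb0.ne']
    exact zpow_le_zpow_right₀ hβ.le (by omega)
  have hterm : ∀ m, R m (β ^ m * x) (β ^ m * v) =
      (if m = j then R j (β ^ j * x) (β ^ j * v) else 0) +
      ((if m = 0 then (if 0 < j ∧ v = 0 then 1 else 0) else 0) +
      (if m = 1 then (if j < 1 ∧ v = 0 then 1 else 0) else 0)) := by
    intro m
    rcases lt_trichotomy m j with hm | hm | hm
    · rw [hR.inner _ (hlow m hm), if_neg hm.ne, zero_add]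
      simp only [mul_zero_ASM hβ]
      by_cases hm0 : m = 0
      · subst hm0
        by_cases hv : v = 0 <;> simp [hv, hm]
      · by_cases hm1 : m = 1
        · subst hm1
          simp [hm.le]
        · simp [hm0, hm1]
    · subst hm
      by_cases hm0 : m = 0
      · subst hm0
        simp
      · by_cases hm1 : m = 1
        · subst hm1
          simp
        · simp [hm0, hm1]
    · rw [hR.outer _ (hupp m hm), if_neg hm.ne', zero_add]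
      simp only [mul_zero_ASM hβ]
      by_cases hm1 : m = 1
      · subst hm1
        by_cases hv : v = 0 <;> simp [hv, hm]
      · by_cases hm0 : m = 0
        · subst hm0
          simp [hm.le]
        · simp [hm0, hm1]
  unfold Ke
  rw [Finset.sum_congr rfl fun m _ => hterm m, Finset.sum_add_distrib, Finset.sum_add_distrib,
    Finset.sum_ite_eq', Finset.sum_ite_eq', Finset.sum_ite_eq', if_pos h0, if_pos h1]
  have e1 : (if j ∈ S then R j (β ^ j * x) (β ^ j * v) else 0) = R j (β ^ j * x) (β ^ j * v) := by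
    split_ifs with h
    · rfl
    · exact (hR.labs j h _ _).symm
  rw [e1]
  by_cases hv : v = 0
  · by_cases hj0 : 0 < j
    · have : ¬ j < 1 := by omega
      simp [hv, hj0, this]
    · have : j < 1 := by omega
      simp [hv, hj0, this]
  · simp [hv]

private theorem ball_ASM (hβ : 1 < ‖β‖) (h0 : (0 : ℤ) ∈ S) (hR : RingK Γ S r₁ r₂ R Λ) {x : ℂ}
    (hx : ∀ m ∈ S, ‖β ^ m * x‖ < r₁) (v : ℂ) : Ke β S R x v = 0 := by
  unfold Ke
  have : ∀ m ∈ S, R m (β ^ m * x) (β ^ m * v) = if m = 0 then (if v = 0 then 1 else 0) else 0 := by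
    intro m hm
    rw [hR.inner _ (hx m hm)]
    simp only [mul_zero_ASM hβ]
    by_cases hm0 : m = 0 <;> by_cases hv : v = 0 <;> simp [hm0, hv]
  rw [Finset.sum_congr rfl this, Finset.sum_ite_eq', if_pos h0, sub_self]

private theorem out_ASM (hβ : 1 < ‖β‖) (h1 : (1 : ℤ) ∈ S) (hR : RingK Γ S r₁ r₂ R Λ) {x : ℂ}
    (hx : ∀ m ∈ S, r₂ < ‖β ^ m * x‖) (v : ℂ) : Ke β S R x v = 0 := by
  unfold Ke
  have : ∀ m ∈ S, R m (β ^ m * x) (β ^ m * v) = if m = 1 then (if v = 0 then 1 else 0) else 0 := by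
    intro m hm
    rw [hR.outer _ (hx m hm)]
    simp only [mul_zero_ASM hβ]
    by_cases hm0 : m = 1 <;> by_cases hv : v = 0 <;> simp [hm0, hv]
  rw [Finset.sum_congr rfl this, Finset.sum_ite_eq', if_pos h1, sub_self]

private theorem zero_ASM (hβ : 1 < ‖β‖) (hr1 : 0 < r₁) (h0 : (0 : ℤ) ∈ S)
    (hR : RingK Γ S r₁ r₂ R Λ) (v : ℂ) : Ke β S R 0 v = 0 :=
  ball_ASM hβ h0 hR (fun m _ => by rw [mul_zero, norm_zero]; exact hr1) v

private theorem shift_ASM (hβ : 1 < ‖β‖) (hr : r₂ < ‖β‖ * r₁) (hR : RingK Γ S r₁ r₂ R Λ)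
    {x v : ℂ} {j : ℤ} (hv : v ≠ 0) (hne : R j (β ^ j * x) (β ^ j * v) ≠ 0) : Lv β r₁ (x + v) j := by
  have hb0 : 0 < ‖β‖ := by linarith
  have hne2 : R j (β ^ j * x + β ^ j * v) (-(β ^ j * v)) ≠ 0 := by
    rw [hR.symm]; exact hne
  have hv2 : -(β ^ j * v) ≠ 0 := by
    rw [neg_ne_zero]
    intro h
    exact hv ((mul_zero_ASM hβ j v).1 h)
  rw [← mul_add] at hne2
  have c1 : r₁ ≤ ‖β ^ j * (x + v)‖ := by
    by_contra hcon
    rw [hR.inner _ (not_le.1 hcon)] at hne2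
    exact hne2 (if_neg fun h => hv2 h.2)
  have c2 : ‖β ^ j * (x + v)‖ ≤ r₂ := by
    by_contra hcon
    rw [hR.outer _ (not_le.1 hcon)] at hne2
    exact hne2 (if_neg fun h => hv2 h.2)
  refine ⟨c1, ?_⟩
  have h3 : ‖β‖ * ‖β ^ (j - 1) * (x + v)‖ = ‖β ^ j * (x + v)‖ := by
    rw [norm_ASM, norm_ASM, ← mul_assoc, zpow_sub_one₀ hb0.ne']
    field_simp
  have h4 : ‖β‖ * ‖β ^ (j - 1) * (x + v)‖ < ‖β‖ * r₁ := by
    rw [h3]
    exact lt_of_le_of_lt c2 hr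
  exact lt_of_mul_lt_mul_left h4 hb0.le

private theorem symm1_ASM (hβ : 1 < ‖β‖) (hr1 : 0 < r₁) (hr : r₂ < ‖β‖ * r₁) (h0 : (0 : ℤ) ∈ S)
    (h1 : (1 : ℤ) ∈ S) (hR : RingK Γ S r₁ r₂ R Λ) (x v : ℂ) (hne : Ke β S R x v ≠ 0) :
    Ke β S R (x + v) (-v) = Ke β S R x v := by
  by_cases hv : v = 0
  · subst hv
    rw [add_zero, neg_zero]
  have hx : x ≠ 0 := by
    rintro rfl
    exact hne (zero_ASM hβ hr1 h0 hR v)
  obtain ⟨j, hj⟩ := lev_ASM hβ hr1 hx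
  rw [key_ASM hβ hr h0 h1 hR hj] at hne ⊢
  have hj2 := shift_ASM hβ hr hR hv hne
  rw [key_ASM hβ hr h0 h1 hR hj2, mul_add, mul_neg, hR.symm]

private theorem symm_ASM (hβ : 1 < ‖β‖) (hr1 : 0 < r₁) (hr : r₂ < ‖β‖ * r₁) (h0 : (0 : ℤ) ∈ S)
    (h1 : (1 : ℤ) ∈ S) (hR : RingK Γ S r₁ r₂ R Λ) (x v : ℂ) :
    Ke β S R (x + v) (-v) = Ke β S R x v := by
  by_cases h : Ke β S R x v = 0
  · by_cases h' : Ke β S R (x + v) (-v) = 0
    · rw [h, h']
    · have := symm1_ASM hβ hr1 hr h0 h1 hR (x + v) (-v) h'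
      rw [add_neg_cancel_right, neg_neg] at this
      exact this.symm
  · exact symm1_ASM hβ hr1 hr h0 h1 hR x v h

private theorem idem_ASM (hβ : 1 < ‖β‖) (hr1 : 0 < r₁) (hr : r₂ < ‖β‖ * r₁) (h0 : (0 : ℤ) ∈ S)
    (h1 : (1 : ℤ) ∈ S) (hR : RingK Γ S r₁ r₂ R Λ) (Λ' : Finset ℂ)
    (hΛ' : ∀ x u, Ke β S R x u ≠ 0 → u ∈ Λ') (x v : ℂ) :
    ∑ u ∈ Λ', Ke β S R x u * Ke β S R (x + u) (v - u) = Ke β S R x v := by
  by_cases hx : x = 0
  · subst hx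
    rw [zero_ASM hβ hr1 h0 hR]
    exact Finset.sum_eq_zero fun u _ => by rw [zero_ASM hβ hr1 h0 hR, zero_mul]
  obtain ⟨j, hj⟩ := lev_ASM hβ hr1 hx
  have hk := key_ASM hβ hr h0 h1 hR hj
  have hterm : ∀ u, Ke β S R x u * Ke β S R (x + u) (v - u) =
      R j (β ^ j * x) (β ^ j * u) * R j (β ^ j * x + β ^ j * u) (β ^ j * v - β ^ j * u) := by
    intro u
    rw [hk u]
    by_cases hne : R j (β ^ j * x) (β ^ j * u) = 0
    · rw [hne, zero_mul, zero_mul]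
    · by_cases hu : u = 0
      · subst hu
        rw [add_zero, sub_zero, hk v, mul_zero, add_zero, sub_zero]
      · rw [key_ASM hβ hr h0 h1 hR (shift_ASM hβ hr hR hu hne), mul_add, mul_sub]
  have hne0 : β ^ j ≠ 0 := zpow_ne_zero _ (nz_ASM hβ)
  calc ∑ u ∈ Λ', Ke β S R x u * Ke β S R (x + u) (v - u)
      = ∑ᶠ u, Ke β S R x u * Ke β S R (x + u) (v - u) := by
        rw [finsum_eq_sum_of_support_subset]
        intro u hu
        rw [Function.mem_support] at hu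
        exact hΛ' x u (left_ne_zero_of_mul hu)
    _ = ∑ᶠ u, R j (β ^ j * x) (Equiv.mulLeft₀ (β ^ j) hne0 u) *
          R j (β ^ j * x + Equiv.mulLeft₀ (β ^ j) hne0 u)
            (β ^ j * v - Equiv.mulLeft₀ (β ^ j) hne0 u) := finsum_congr fun u => hterm u
    _ = ∑ᶠ w, R j (β ^ j * x) w * R j (β ^ j * x + w) (β ^ j * v - w) :=
        finsum_comp_equiv (Equiv.mulLeft₀ (β ^ j) hne0)
          (f := fun w => R j (β ^ j * x) w * R j (β ^ j * x + w) (β ^ j * v - w))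
    _ = ∑ w ∈ Λ, R j (β ^ j * x) w * R j (β ^ j * x + w) (β ^ j * v - w) := by
        rw [finsum_eq_sum_of_support_subset]
        intro w hw
        rw [Function.mem_support] at hw
        exact hR.supp _ _ _ (left_ne_zero_of_mul hw)
    _ = R j (β ^ j * x) (β ^ j * v) := hR.idem _ _ _
    _ = Ke β S R x v := (hk v).symm

private theorem tele_ASM (hβ : 1 < ‖β‖) (hr1 : 0 < r₁) (hr : r₂ < ‖β‖ * r₁) (h0 : (0 : ℤ) ∈ S)
    (h1 : (1 : ℤ) ∈ S) (hR : RingK Γ S r₁ r₂ R Λ) (x v : ℂ) (hx : x ≠ 0) :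
    ∑ᶠ i : ℤ, Ke β S R (β ^ (-i) * x) (β ^ (-i) * v) = if v = 0 then 1 else 0 := by
  have hb := nz_ASM hβ
  obtain ⟨j, hj⟩ := lev_ASM hβ hr1 hx
  have e0 : ∀ (a i : ℤ) (y : ℂ), β ^ (a + i) * (β ^ (-i) * y) = β ^ a * y := by
    intro a i y
    rw [← mul_assoc, ← zpow_add₀ hb]
    congr 2
    ring
  have e1 : ∀ i : ℤ, Ke β S R (β ^ (-i) * x) (β ^ (-i) * v) =
      R (i + j) (β ^ j * x) (β ^ j * v) := by
    intro i
    have hj2 : Lv β r₁ (β ^ (-i) * x) (j + i) := by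
      refine ⟨?_, ?_⟩
      · rw [e0]; exact hj.1
      · have : j + i - 1 = j - 1 + i := by ring
        rw [this, e0]; exact hj.2
    rw [key_ASM hβ hr h0 h1 hR hj2, e0, e0, add_comm]
  calc ∑ᶠ i : ℤ, Ke β S R (β ^ (-i) * x) (β ^ (-i) * v)
      = ∑ᶠ i : ℤ, R (Equiv.addRight j i) (β ^ j * x) (β ^ j * v) := finsum_congr fun i => e1 i
    _ = ∑ᶠ l : ℤ, R l (β ^ j * x) (β ^ j * v) :=
        finsum_comp_equiv (Equiv.addRight j) (f := fun l => R l (β ^ j * x) (β ^ j * v))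
    _ = ∑ l ∈ S, R l (β ^ j * x) (β ^ j * v) := by
        rw [finsum_eq_sum_of_support_subset]
        intro l hl
        rw [Function.mem_support] at hl
        by_contra hS
        exact hl (hR.labs l hS _ _)
    _ = if v = 0 then 1 else 0 := by
        rw [hR.sum]
        simp only [mul_zero_ASM hβ]

end

theorem hASM : Pool.Agent.Helper71.UN.StASM := by
  intro β Γ S r₁ r₂ R Λ hβ hr1 hr hlat _ h0 h1 hR
  have hb := nz_ASM hβ
  have hb0 : 0 < ‖β‖ := by linarith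
  -- nonzero values
  have hval : ∀ x v, Ke β S R x v ≠ 0 → ∃ j ∈ S, R j (β ^ j * x) (β ^ j * v) ≠ 0 := by
    intro x v hne
    have hx : x ≠ 0 := by
      rintro rfl
      exact hne (zero_ASM hβ hr1 h0 hR v)
    obtain ⟨j, hj⟩ := lev_ASM hβ hr1 hx
    rw [key_ASM hβ hr h0 h1 hR hj] at hne
    refine ⟨j, ?_, hne⟩
    by_contra hS
    exact hne (hR.labs j hS _ _)
  have hinv : ∀ (j : ℤ) (y : ℂ), β ^ (-j) * (β ^ j * y) = y := by
    intro j y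
    rw [← mul_assoc, ← zpow_add₀ hb]
    simp
  have hfin : {v : ℂ | ∃ x, Ke β S R x v ≠ 0}.Finite := by
    refine Set.Finite.subset (s := ⋃ m ∈ S, (fun v => β ^ (-m) * v) '' (Λ : Set ℂ)) ?_ ?_
    · exact S.finite_toSet.biUnion fun m _ => Λ.finite_toSet.image _
    · rintro v ⟨x, hx⟩
      obtain ⟨j, hj, hne⟩ := hval x v hx
      rw [mem_iUnion₂]
      exact ⟨j, hj, β ^ j * v, hR.supp _ _ _ hne, hinv j v⟩
  have hsub : ∀ x v, Ke β S R x v ≠ 0 → v ∈ hfin.toFinset := by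
    intro x v h
    rw [Set.Finite.mem_toFinset]
    exact ⟨x, h⟩
  -- constants
  have hB : ∀ m ∈ S, ‖β‖ ^ m ≤ ∑ m ∈ S, ‖β‖ ^ m := fun m hm =>
    Finset.single_le_sum (f := fun m => ‖β‖ ^ m) (fun i _ => (zpow_pos hb0 i).le) hm
  have hB' : ∀ m ∈ S, ‖β‖ ^ (-m) ≤ ∑ m ∈ S, ‖β‖ ^ (-m) := fun m hm =>
    Finset.single_le_sum (f := fun m => ‖β‖ ^ (-m)) (fun i _ => (zpow_pos hb0 (-i)).le) hm
  obtain ⟨B, hBe⟩ : ∃ B, B = ∑ m ∈ S, ‖β‖ ^ m := ⟨_, rfl⟩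
  obtain ⟨B', hBe'⟩ : ∃ B', B' = ∑ m ∈ S, ‖β‖ ^ (-m) := ⟨_, rfl⟩
  rw [← hBe] at hB
  rw [← hBe'] at hB'
  have hBp : 0 < B := lt_of_lt_of_le (zpow_pos hb0 0) (hB 0 h0)
  refine ⟨Ke β S R, hfin.toFinset, r₁ / (2 * B), (|r₂| + 1) * B', ?_⟩
  refine ⟨?_, hsub, ?_, by positivity, ?_, ?_, symm_ASM hβ hr1 hr h0 h1 hR,
    idem_ASM hβ hr1 hr h0 h1 hR _ hsub, fun x v hx => tele_ASM hβ hr1 hr h0 h1 hR x v hx⟩
  · intro v
    unfold Ke
    refine ContDiff.sub (ContDiff.sum fun m _ => ?_) contDiff_const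
    exact (hR.smooth m (β ^ m * v)).comp (contDiff_const.mul contDiff_id)
  · intro v hv
    rw [Set.Finite.mem_toFinset] at hv
    obtain ⟨x, hx⟩ := hv
    obtain ⟨j, hj, hne⟩ := hval x v hx
    have h2 := hlat j (-j) _ (hR.lat _ _ _ hne)
    rwa [hinv, add_neg_cancel] at h2
  · intro x v hx
    refine ball_ASM hβ h0 hR (fun m hm => ?_) v
    rw [norm_ASM]
    have h2 : ‖β‖ ^ m * ‖x‖ ≤ B * (r₁ / (2 * B)) :=
      mul_le_mul (hB m hm) hx (norm_nonneg _) hBp.le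
    have h3 : B * (r₁ / (2 * B)) = r₁ / 2 := by field_simp
    rw [h3] at h2
    linarith
  · intro x v hx
    refine out_ASM hβ h1 hR (fun m hm => ?_) v
    rw [norm_ASM]
    have h2 : ‖β‖ ^ m * ((|r₂| + 1) * B') ≤ ‖β‖ ^ m * ‖x‖ :=
      mul_le_mul_of_nonneg_left hx (zpow_pos hb0 m).le
    have h3 : ‖β‖ ^ m * ‖β‖ ^ (-m) = 1 := by
      rw [← zpow_add₀ hb0.ne', add_neg_cancel, zpow_zero]
    have h4 : 1 ≤ ‖β‖ ^ m * B' := by
      rw [← h3]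
      exact mul_le_mul_of_nonneg_left (hB' m hm) (zpow_pos hb0 m).le
    have h5 : (|r₂| + 1) * 1 ≤ (|r₂| + 1) * (‖β‖ ^ m * B') :=
      mul_le_mul_of_nonneg_left h4 (by positivity)
    have h6 := le_abs_self r₂
    nlinarith

end Pool.Agent.Helper87.UN38
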